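import Mathlib

set_option autoImplicit false

namespace Pool.Agent.Lib.H2I

/-- `P` is a `d`-polytope in `ℝ^d`: the convex hull of a finite set, with nonempty interior. -/
def IsPolytope {d : ℕ} (P : Set (Fin d → ℝ)) : Prop :=
  (∃ S : Finset (Fin d → ℝ), P = convexHull ℝ (S : Set (Fin d → ℝ))) ∧ (interior P).Nonempty

/-- `P` is centrally symmetric: some translate `P'` of `P` satisfies `P' = -P'`. -/
def CentrallySymmetric {d : ℕ} (P : Set (Fin d → ℝ)) : Prop :=
  ∃ c : Fin d → ℝ, (fun x => c + x) '' P = -((fun x => c + x) '' P)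

/-- `F` is a proper face of `P`: it is empty or the set of all points of `P` at which some linear
functional attains its maximum over `P`, and it is not `P`. -/
def IsProperFace {d : ℕ} (P F : Set (Fin d → ℝ)) : Prop :=
  (F = ∅ ∨ ∃ f : (Fin d → ℝ) →ₗ[ℝ] ℝ, F = {x | x ∈ P ∧ ∀ y ∈ P, f y ≤ f x}) ∧ F ≠ P

/-- `F` is a facet of `P`: a proper face whose affine hull has dimension `d - 1`. -/
def IsFacet {d : ℕ} (P F : Set (Fin d → ℝ)) : Prop :=
  IsProperFace P F ∧ F.Nonempty ∧ Module.finrank ℝ (vectorSpan ℝ F) + 1 = d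

/-- `P` is simple: every vertex lies in exactly `d` facets. -/
def IsSimple {d : ℕ} (P : Set (Fin d → ℝ)) : Prop :=
  ∀ v ∈ P.extremePoints ℝ, {F : Set (Fin d → ℝ) | IsFacet P F ∧ v ∈ F}.ncard = d

/-- The cube `[-1, 1]^d`. -/
def cube (d : ℕ) : Set (Fin d → ℝ) := {x | ∀ i, -1 ≤ x i ∧ x i ≤ 1}

/-- The homeomorphism `φ` from the boundary of `P` onto the boundary of `K` pulls the set `G` back to
a union of proper faces of `P`. -/
def PullsBackToFaces {d : ℕ} {P K : Set (Fin d → ℝ)} (φ : frontier P ≃ₜ frontier K)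
    (G : Set (Fin d → ℝ)) : Prop :=
  ∃ 𝓕 : Set (Set (Fin d → ℝ)), (∀ F ∈ 𝓕, IsProperFace P F) ∧
    ∀ x : frontier P, (φ x : Fin d → ℝ) ∈ G ↔ ∃ F ∈ 𝓕, (x : Fin d → ℝ) ∈ F

/-- The boundary complex of `P` is a refinement of the boundary complex of `K`: some homeomorphism
from the boundary of `P` onto the boundary of `K` pulls every proper face of `K` back to a union of
proper faces of `P`. -/
def BoundaryRefines {d : ℕ} (P K : Set (Fin d → ℝ)) : Prop :=
  ∃ φ : frontier P ≃ₜ frontier K, ∀ G, IsProperFace K G → PullsBackToFaces φ G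

/-- The polytope of all points of the cube `[-1, 1]^d` whose first four coordinates have a sum
between `-1` and `1` (for `d = 4` it is the section of the cube `[-1, 1]^5` by the hyperplane of the
vectors with coordinate sum `0`; for larger `d` the product of this polytope with `[-1, 1]^(d-4)`). -/
def capped (d : ℕ) : Set (Fin d → ℝ) :=
  {x | x ∈ cube d ∧ |∑ i : Fin d, if (i : ℕ) < 4 then x i else 0| ≤ 1}

end Pool.Agent.Lib.H2I
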