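import Pool.Agent.Lib.H2I.Gen
import Pool.Agent.Lib.H2I.Defs

set_option autoImplicit false

namespace Pool.Agent.Lib.H2I

open Set Topology Filter

variable {d : ℕ}

/-- the first four indices -/
def Ac (d : ℕ) : Finset (Fin d) := Finset.univ.filter fun i => (i : ℕ) < 4

lemma card_Ac (hd : 4 ≤ d) : (Ac d).card = 4 := by
  have h : Ac d = Finset.univ.map (Fin.castLEEmb hd) := by
    ext i
    simp only [Ac, Finset.mem_filter, Finset.mem_univ, true_and, Finset.mem_map,
      Fin.castLEEmb_apply]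
    constructor
    · intro hi
      exact ⟨⟨i, hi⟩, by ext; simp⟩
    · rintro ⟨j, rfl⟩
      simp
  rw [h, Finset.card_map, Finset.card_univ, Fintype.card_fin]

/-- the group of five forms with sum zero -/
def Gr (d : ℕ) : Finset (Option (Fin d)) := Finset.insertNone (Ac d)

lemma card_Gr (hd : 4 ≤ d) : (Gr d).card = 5 := by
  rw [Gr, Finset.card_insertNone, card_Ac hd]

/-- The coordinate forms and minus the sum of the first four. -/
noncomputable def yv (o : Option (Fin d)) : StrongDual ℝ (Fin d → ℝ) :=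
  match o with
  | none => -(∑ k ∈ Ac d, ContinuousLinearMap.proj (R := ℝ) (φ := fun _ : Fin d => ℝ) k)
  | some i => ContinuousLinearMap.proj (R := ℝ) (φ := fun _ : Fin d => ℝ) i

lemma yv_some (i : Fin d) (x : Fin d → ℝ) : yv (some i) x = x i := rfl

lemma yv_none (x : Fin d → ℝ) : yv (none : Option (Fin d)) x = -∑ k ∈ Ac d, x k := by
  simp [yv]

lemma sum_yv (x : Fin d → ℝ) : ∑ o ∈ Gr d, yv o x = 0 := by
  rw [Gr, Finset.sum_insertNone, yv_none]
  simp [yv_some]

/-- sign of a boolean -/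
noncomputable def sg (b : Bool) : ℝ := if b then 1 else -1

lemma sg_abs (b : Bool) : |sg b| = 1 := by cases b <;> simp [sg]

lemma sg_sq (b : Bool) : sg b * sg b = 1 := by cases b <;> simp [sg]

/-- The inequalities `± y o ≤ 1`. -/
noncomputable def lv (j : Option (Fin d) × Bool) : StrongDual ℝ (Fin d → ℝ) :=
  if j.2 then yv j.1 else -yv j.1

lemma lv_apply (j : Option (Fin d) × Bool) (x : Fin d → ℝ) : lv j x = sg j.2 * yv j.1 x := by
  obtain ⟨o, b⟩ := j
  cases b <;> simp [lv, sg]

/-- The inequalities of the cube. -/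
noncomputable def lc (j : Fin d × Bool) : StrongDual ℝ (Fin d → ℝ) :=
  if j.2 then ContinuousLinearMap.proj (R := ℝ) (φ := fun _ : Fin d => ℝ) j.1
  else -ContinuousLinearMap.proj (R := ℝ) (φ := fun _ : Fin d => ℝ) j.1

lemma lc_apply (j : Fin d × Bool) (x : Fin d → ℝ) : lc j x = sg j.2 * x j.1 := by
  obtain ⟨o, b⟩ := j
  cases b <;> simp [lc, sg]

lemma cube_eq : cube d = HP (lc (d := d)) := by
  ext x
  constructor
  · rintro h ⟨i, b⟩
    have := h i
    rw [lc_apply]
    cases b <;> simp [sg] <;> linarith [this.1, this.2]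
  · intro h i
    have h1 := h (i, true)
    have h2 := h (i, false)
    rw [lc_apply] at h1 h2
    simp [sg] at h1 h2
    exact ⟨by linarith, h1⟩

lemma mem_HP_iff (x : Fin d → ℝ) : x ∈ HP (lv (d := d)) ↔ ∀ o, |yv o x| ≤ 1 := by
  constructor
  · intro h o
    have h1 := h (o, true)
    have h2 := h (o, false)
    rw [lv_apply] at h1 h2
    simp [sg] at h1 h2
    exact abs_le.2 ⟨by linarith, h1⟩
  · rintro h ⟨o, b⟩
    have := abs_le.1 (h o)
    rw [lv_apply]
    cases b <;> simp [sg] <;> linarith [this.1, this.2]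

lemma capped_eq : capped d = HP (lv (d := d)) := by
  ext x
  rw [mem_HP_iff]
  have hs : (∑ i : Fin d, if (i : ℕ) < 4 then x i else 0) = ∑ k ∈ Ac d, x k := by
    rw [Ac, Finset.sum_filter]
  constructor
  · rintro ⟨h1, h2⟩ o
    cases o with
    | none =>
      rw [yv_none, abs_neg, ← hs]
      exact h2
    | some i =>
      rw [yv_some]
      exact abs_le.2 (h1 i)
  · intro h
    refine ⟨fun i => ?_, ?_⟩
    · have := h (some i)
      rw [yv_some] at this
      exact abs_le.1 this
    · have := h none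
      rw [yv_none, abs_neg, ← hs] at this
      exact this

lemma yv_pt (z : Option (Fin d) → ℝ) (hz : ∑ o ∈ Gr d, z o = 0) (o : Option (Fin d)) :
    yv o (fun i => z (some i)) = z o := by
  cases o with
  | none =>
    rw [yv_none]
    rw [Gr, Finset.sum_insertNone] at hz
    linarith
  | some i => rfl

/-- At an extreme point every direction changes some tight form. -/
lemma extreme_dir {x : Fin d → ℝ} (hx : x ∈ (HP (lv (d := d))).extremePoints ℝ)
    (w : Fin d → ℝ) (o₀ : Option (Fin d)) (ho : yv o₀ w ≠ 0) :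
    ∃ o, yv o w ≠ 0 ∧ |yv o x| = 1 := by
  by_contra hcon
  push Not at hcon
  have hxP := hx.1
  have hb := (mem_HP_iff x).1 hxP
  have hmove : ∀ v : Fin d → ℝ, (∀ o, yv o w = 0 → yv o v = 0) →
      ∃ t : ℝ, 0 < t ∧ x + t • v ∈ HP (lv (d := d)) := by
    intro v hv
    apply exists_move
    rintro ⟨o, b⟩
    by_cases h0 : yv o w = 0
    · right
      refine ⟨hxP _, ?_⟩
      rw [lv_apply, hv o h0, mul_zero]
    · left
      have h1 : |yv o x| < 1 := lt_of_le_of_ne (hb o) (hcon o h0)
      have := abs_lt.1 h1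
      rw [lv_apply]
      cases b <;> simp [sg] <;> linarith [this.1, this.2]
  obtain ⟨t1, ht1, hP1⟩ := hmove w (fun o h => h)
  obtain ⟨t2, ht2, hP2⟩ := hmove (-w) (fun o h => by rw [map_neg, h, neg_zero])
  have hseg : x ∈ openSegment ℝ (x + t1 • w) (x + t2 • (-w)) := by
    refine ⟨t2 / (t1 + t2), t1 / (t1 + t2), by positivity, by positivity, by field_simp; ring, ?_⟩
    ext m
    simp only [Pi.add_apply, Pi.smul_apply, smul_eq_mul, Pi.neg_apply]
    field_simp
    ring
  have h3 := hx.2 hP1 hP2 hseg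
  have h4 : yv o₀ (x + t1 • w) = yv o₀ x := by rw [h3]
  rw [map_add, map_smul, smul_eq_mul] at h4
  have h5 : t1 * yv o₀ w = 0 := by linarith
  rcases mul_eq_zero.1 h5 with h | h
  · exact absurd h ht1.ne'
  · exact ho h

open scoped Classical in
lemma extreme_out {x : Fin d → ℝ} (hx : x ∈ (HP (lv (d := d))).extremePoints ℝ)
    (o : Option (Fin d)) (ho : o ∉ Gr d) : |yv o x| = 1 := by
  have hz : ∑ p ∈ Gr d, (if p = o then (1 : ℝ) else 0) = 0 := by
    rw [Finset.sum_ite_eq' (Gr d) o, if_neg ho]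
  have hw := yv_pt (fun p => if p = o then (1 : ℝ) else 0) hz
  obtain ⟨p, hp, hp1⟩ := extreme_dir hx (fun i => if some i = o then (1 : ℝ) else 0) o (by
    have := hw o
    simp only [if_true] at this
    rw [this]; exact one_ne_zero)
  have h1 := hw p
  rw [h1] at hp
  by_cases hpo : p = o
  · rw [← hpo]; exact hp1
  · rw [if_neg hpo] at hp
    exact absurd rfl hp

open scoped Classical in
lemma extreme_pair {x : Fin d → ℝ} (hx : x ∈ (HP (lv (d := d))).extremePoints ℝ)
    (o q : Option (Fin d)) (ho : o ∈ Gr d) (hq : q ∈ Gr d) (hoq : o ≠ q) :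
    |yv o x| = 1 ∨ |yv q x| = 1 := by
  set z : Option (Fin d) → ℝ := fun p => (if p = o then 1 else 0) - (if p = q then 1 else 0) with hzdef
  have hz : ∑ p ∈ Gr d, z p = 0 := by
    simp only [hzdef, Finset.sum_sub_distrib]
    rw [Finset.sum_ite_eq' (Gr d) o, Finset.sum_ite_eq' (Gr d) q, if_pos ho, if_pos hq, sub_self]
  have hw := yv_pt z hz
  obtain ⟨p, hp, hp1⟩ := extreme_dir hx (fun i => z (some i)) o (by
    rw [hw o]
    simp [hzdef, hoq])
  rw [hw p] at hp
  by_cases hpo : p = o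
  · left; rw [← hpo]; exact hp1
  · by_cases hpq : p = q
    · right; rw [← hpq]; exact hp1
    · exfalso
      apply hp
      simp [hzdef, hpo, hpq]

/-- A sum of signs. -/
lemma sum_signs {ι : Type} (s : Finset ι) (f : ι → ℝ) (hf : ∀ i ∈ s, |f i| = 1) :
    ∃ m : ℤ, ∑ i ∈ s, f i = 2 * (m : ℝ) - s.card := by
  classical
  induction s using Finset.induction_on with
  | empty => exact ⟨0, by simp⟩
  | insert a s ha ih =>
    obtain ⟨m, hm⟩ := ih fun i hi => hf i (Finset.mem_insert_of_mem hi)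
    rw [Finset.sum_insert ha, Finset.card_insert_of_notMem ha, hm]
    rcases (abs_eq one_pos.le).1 (hf a (Finset.mem_insert_self _ _)) with h | h
    · exact ⟨m + 1, by rw [h]; push_cast; ring⟩
    · exact ⟨m, by rw [h]; push_cast; ring⟩

/-- Exactly one form of the group vanishes at a vertex, all other forms are `±1`. -/
lemma extreme_zero (hd : 4 ≤ d) {x : Fin d → ℝ} (hx : x ∈ (HP (lv (d := d))).extremePoints ℝ) :
    ∃ z : Option (Fin d), yv z x = 0 ∧ ∀ o, o ≠ z → |yv o x| = 1 := by
  classical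
  have hsum := sum_yv x
  have hcard := card_Gr hd
  have h1 : ∃ z ∈ Gr d, |yv z x| ≠ 1 := by
    by_contra hcon
    push Not at hcon
    obtain ⟨m, hm⟩ := sum_signs (Gr d) (fun o => yv o x) hcon
    rw [hsum, hcard] at hm
    have h2 : (2 * m : ℝ) = 5 := by push_cast at hm; linarith
    have h3 : (2 * m : ℤ) = 5 := by exact_mod_cast h2
    omega
  obtain ⟨z, hz, hz1⟩ := h1
  have h2 : ∀ o ∈ (Gr d).erase z, |yv o x| = 1 := by
    intro o ho
    rw [Finset.mem_erase] at ho
    rcases extreme_pair hx o z ho.2 hz ho.1 with h | h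
    · exact h
    · exact absurd h hz1
  obtain ⟨m, hm⟩ := sum_signs ((Gr d).erase z) (fun o => yv o x) h2
  rw [Finset.card_erase_of_mem hz, hcard] at hm
  rw [← Finset.add_sum_erase _ _ hz, hm] at hsum
  have h3 : yv z x = 4 - 2 * (m : ℝ) := by push_cast at hsum; linarith
  have h4 := (mem_HP_iff x).1 hx.1 z
  rw [h3] at h4
  have h5 := abs_le.1 h4
  have h6 : (-1 : ℤ) ≤ 4 - 2 * m := by exact_mod_cast h5.1
  have h7 : 4 - 2 * m ≤ (1 : ℤ) := by exact_mod_cast h5.2
  have h8 : m = 2 := by omega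
  refine ⟨z, by rw [h3, h8]; norm_num, fun o ho => ?_⟩
  by_cases hoG : o ∈ Gr d
  · exact h2 o (Finset.mem_erase.2 ⟨ho, hoG⟩)
  · exact extreme_out hx o hoG

end Pool.Agent.Lib.H2I
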