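import Pool.Agent.Lib.H2I.Ex

set_option autoImplicit false

namespace Pool.Agent.Lib.H2I

open Set Topology Filter

variable {d : ℕ}

lemma isCompact_HP : IsCompact (HP (lv (d := d))) := by
  apply Metric.isCompact_of_isClosed_isBounded (isClosed_HP lv)
  rw [isBounded_iff_forall_norm_le]
  refine ⟨1, fun x hx => ?_⟩
  rw [pi_norm_le_iff_of_nonneg one_pos.le]
  intro i
  exact (mem_HP_iff x).1 hx (some i)

lemma finite_extreme (hd : 4 ≤ d) : ((HP (lv (d := d))).extremePoints ℝ).Finite := by
  have h1 : (Set.pi Set.univ (fun _ : Fin d => ({-1, 0, 1} : Set ℝ))).Finite :=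
    Set.Finite.pi fun _ => by simp
  refine h1.subset fun x hx => ?_
  intro i _
  obtain ⟨z, hz, hz1⟩ := extreme_zero hd hx
  by_cases hi : some i = z
  · have : x i = 0 := by
      rw [← hz, ← hi, yv_some]
    rw [this]; simp
  · rcases (abs_eq one_pos.le).1 (hz1 (some i) hi) with h | h
    · rw [yv_some] at h; rw [h]; simp
    · rw [yv_some] at h; rw [h]; simp

lemma hull_eq (hd : 4 ≤ d) :
    HP (lv (d := d)) = convexHull ℝ ((finite_extreme hd).toFinset : Set (Fin d → ℝ)) := by
  rw [Set.Finite.coe_toFinset]
  apply Subset.antisymm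
  · have h2 : IsClosed (convexHull ℝ ((HP (lv (d := d))).extremePoints ℝ)) :=
      ((finite_extreme hd).isCompact_convexHull (𝕜 := ℝ)).isClosed
    calc HP (lv (d := d)) = closure (convexHull ℝ ((HP (lv (d := d))).extremePoints ℝ)) :=
          (closure_convexHull_extremePoints isCompact_HP (convex_HP lv)).symm
      _ ⊆ _ := h2.closure_eq.subset
  · exact convexHull_min extremePoints_subset (convex_HP lv)

open scoped Classical in
/-- the values of the forms at the centre of a facet -/
noncomputable def zc (o p : Option (Fin d)) : ℝ :=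
  if p = o then 1 else if o ∈ Gr d ∧ p ∈ Gr d then -(1/4) else 0

lemma sum_zc (hd : 4 ≤ d) (o : Option (Fin d)) : ∑ p ∈ Gr d, zc o p = 0 := by
  classical
  by_cases ho : o ∈ Gr d
  · rw [← Finset.add_sum_erase _ _ ho]
    have h1 : ∀ p ∈ (Gr d).erase o, zc o p = -(1/4) := by
      intro p hp
      rw [Finset.mem_erase] at hp
      rw [zc, if_neg hp.1, if_pos ⟨ho, hp.2⟩]
    rw [Finset.sum_congr rfl h1, Finset.sum_const, Finset.card_erase_of_mem ho, card_Gr hd]
    rw [zc, if_pos rfl]
    norm_num
  · refine Finset.sum_eq_zero fun p hp => ?_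
    have hpo : p ≠ o := by
      rintro rfl
      exact ho hp
    rw [zc, if_neg hpo, if_neg (fun h => ho h.1)]

/-- centres of the facets -/
noncomputable def cv (j : Option (Fin d) × Bool) : Fin d → ℝ := fun i => sg j.2 * zc j.1 (some i)

lemma yv_cv (hd : 4 ≤ d) (j : Option (Fin d) × Bool) (p : Option (Fin d)) :
    yv p (cv j) = sg j.2 * zc j.1 p := by
  have h := yv_pt (fun p => sg j.2 * zc j.1 p) (by
    rw [← Finset.mul_sum, sum_zc hd, mul_zero]) p
  exact h

lemma zc_self (o : Option (Fin d)) : zc o o = 1 := by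
  classical
  rw [zc, if_pos rfl]

lemma zc_ne {o p : Option (Fin d)} (h : p ≠ o) : |zc o p| < 1 := by
  classical
  rw [zc, if_neg h]
  split_ifs
  · rw [abs_neg, abs_of_pos (by norm_num)]; norm_num
  · simp

lemma centers_lv (hd : 4 ≤ d) : Centers (lv (d := d)) cv := by
  rintro ⟨o, b⟩
  refine ⟨?_, ?_⟩
  · rw [lv_apply, yv_cv hd]
    simp only [zc_self, mul_one]
    exact sg_sq b
  · rintro ⟨p, b'⟩ hk
    rw [lv_apply, yv_cv hd]
    by_cases hpo : p = o
    · subst hpo
      have hb : b' ≠ b := by
        rintro rfl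
        exact hk rfl
      simp only [zc_self, mul_one]
      cases b <;> cases b' <;> simp_all [sg] <;> norm_num
    · have h1 := zc_ne hpo
      have h2 : |sg b' * (sg b * zc o p)| < 1 := by
        rw [abs_mul, abs_mul, sg_abs, sg_abs, one_mul, one_mul]
        exact h1
      exact lt_of_le_of_lt (le_abs_self _) h2

/-- Two facets which are not opposite have a common point. -/
lemma meet_of_ne (hd : 4 ≤ d) (a b : Option (Fin d) × Bool) (hab : b ≠ (a.1, !a.2)) :
    (HF (lv (d := d)) a ∩ HF lv b).Nonempty := by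
  classical
  by_cases h0 : a.1 = b.1
  · have hab' : b = a := by
      have h1 : b.2 ≠ !a.2 := by
        intro h
        apply hab
        ext1
        · exact h0.symm
        · exact h
      have h2 : b.2 = a.2 := by
        cases ha : a.2 <;> cases hb : b.2 <;> simp_all
      exact Prod.ext h0.symm h2
    rw [hab', Set.inter_self]
    exact ⟨cv a, (centers_lv hd).mem a⟩
  · -- the sum over the two given forms, if they are in the group
    set v : Option (Fin d) → ℝ := fun p => if p = a.1 then sg a.2 else sg b.2 with hv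
    set B : Finset (Option (Fin d)) := (Gr d).filter fun p => p = a.1 ∨ p = b.1 with hB
    set B' : Finset (Option (Fin d)) := (Gr d).filter fun p => ¬ (p = a.1 ∨ p = b.1) with hB'
    have hBc : B.card ≤ 2 := by
      have h1 : B ⊆ {a.1, b.1} := by
        intro p hp
        rw [hB, Finset.mem_filter] at hp
        simpa using hp.2
      exact (Finset.card_le_card h1).trans Finset.card_le_two
    have hcc : B.card + B'.card = 5 := by
      rw [hB, hB', Finset.card_filter_add_card_filter_not, card_Gr hd]
    have hB'3 : 3 ≤ B'.card := by omega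
    have hB'3r : (3 : ℝ) ≤ B'.card := by exact_mod_cast hB'3
    have hvabs : ∀ p, |v p| = 1 := by
      intro p
      simp only [hv]
      split_ifs
      · exact sg_abs _
      · exact sg_abs _
    have hS : |∑ p ∈ B, v p| ≤ 2 := by
      calc |∑ p ∈ B, v p| ≤ ∑ p ∈ B, |v p| := Finset.abs_sum_le_sum_abs _ _
        _ = B.card := by simp [hvabs]
        _ ≤ 2 := by exact_mod_cast hBc
    set c : ℝ := -(∑ p ∈ B, v p) / B'.card with hc
    have hcabs : |c| ≤ 1 := by
      rw [hc, abs_div, abs_neg, Nat.abs_cast, div_le_one (by linarith)]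
      linarith
    set z : Option (Fin d) → ℝ := fun p =>
      if p = a.1 ∨ p = b.1 then v p else if p ∈ Gr d then c else 0 with hz
    have hzsum : ∑ p ∈ Gr d, z p = 0 := by
      rw [← Finset.sum_filter_add_sum_filter_not (Gr d) (fun p => p = a.1 ∨ p = b.1)]
      have h1 : ∑ p ∈ (Gr d).filter (fun p => p = a.1 ∨ p = b.1), z p = ∑ p ∈ B, v p := by
        refine Finset.sum_congr rfl fun p hp => ?_
        rw [Finset.mem_filter] at hp
        simp only [hz]
        rw [if_pos hp.2]
      have h2 : ∑ p ∈ (Gr d).filter (fun p => ¬ (p = a.1 ∨ p = b.1)), z p = B'.card * c := by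
        rw [← nsmul_eq_mul, ← Finset.sum_const]
        refine Finset.sum_congr rfl fun p hp => ?_
        rw [Finset.mem_filter] at hp
        simp only [hz]
        rw [if_neg hp.2, if_pos hp.1]
      rw [h1, h2, hc]
      field_simp
      ring
    have hzabs : ∀ p, |z p| ≤ 1 := by
      intro p
      simp only [hz]
      split_ifs
      · exact (hvabs p).le
      · exact hcabs
      · simp
    have hy := yv_pt z hzsum
    have hP : (fun i => z (some i)) ∈ HP (lv (d := d)) := by
      rw [mem_HP_iff]
      intro o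
      rw [hy o]
      exact hzabs o
    refine ⟨fun i => z (some i), ⟨hP, ?_⟩, ⟨hP, ?_⟩⟩
    · rw [lv_apply, hy]
      have : z a.1 = sg a.2 := by simp [hz, hv]
      rw [this, sg_sq]
    · rw [lv_apply, hy]
      have : z b.1 = sg b.2 := by
        have h1 : b.1 ≠ a.1 := Ne.symm h0
        simp [hz, hv, h1]
      rw [this, sg_sq]

lemma meet (hd : 4 ≤ d) (a b e : Option (Fin d) × Bool) (hbe : b ≠ e) :
    (HF (lv (d := d)) a ∩ HF lv b).Nonempty ∨ (HF (lv (d := d)) a ∩ HF lv e).Nonempty := by
  by_cases hb : b = (a.1, !a.2)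
  · right
    apply meet_of_ne hd
    rintro rfl
    exact hbe hb
  · left
    exact meet_of_ne hd a b hb

/-- A vertex lies on exactly `d` of the facets. -/
lemma count_tight (hd : 4 ≤ d) {x : Fin d → ℝ} (hx : x ∈ (HP (lv (d := d))).extremePoints ℝ) :
    {j : Option (Fin d) × Bool | lv j x = 1}.ncard = d := by
  classical
  obtain ⟨z, hz, hz1⟩ := extreme_zero hd hx
  have h1 : Set.InjOn Prod.fst {j : Option (Fin d) × Bool | lv j x = 1} := by
    rintro ⟨o, b⟩ hj ⟨p, b'⟩ hk h
    simp only at h
    subst h
    simp only [mem_ofPred_eq, lv_apply] at hj hk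
    cases b <;> cases b' <;> simp [sg] at hj hk ⊢ <;> linarith
  rw [← h1.ncard_image]
  have h2 : Prod.fst '' {j : Option (Fin d) × Bool | lv j x = 1} =
      ((Finset.univ.erase z : Finset (Option (Fin d))) : Set (Option (Fin d))) := by
    ext o
    simp only [Set.mem_image, mem_ofPred_eq, Finset.coe_erase, Finset.coe_univ, Set.mem_diff,
      Set.mem_univ, Set.mem_singleton_iff, true_and]
    constructor
    · rintro ⟨⟨p, b⟩, hj, rfl⟩ h
      simp only at h
      rw [lv_apply] at hj
      simp only at hj
      rw [h, hz, mul_zero] at hj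
      exact zero_ne_one hj
    · intro ho
      rcases (abs_eq one_pos.le).1 (hz1 o ho) with h | h
      · exact ⟨(o, true), by rw [lv_apply]; simp [sg, h], rfl⟩
      · exact ⟨(o, false), by rw [lv_apply]; simp [sg, h], rfl⟩
  rw [h2, Set.ncard_coe_finset, Finset.card_erase_of_mem (Finset.mem_univ _), Finset.card_univ,
    Fintype.card_option, Fintype.card_fin]
  simp

end Pool.Agent.Lib.H2I
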