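import Pool.Agent.Lib.H2I.Ex2

set_option autoImplicit false

namespace Pool.Agent.Lib.H2I

open Set Topology Filter

variable {d : ℕ}

lemma IsProperFace.isExposed {P F : Set (Fin d → ℝ)} (h : IsProperFace P F) : IsExposed ℝ P F := by
  rcases h.1 with h0 | ⟨f, hf⟩
  · intro hne
    rw [h0] at hne
    exact absurd hne Set.not_nonempty_empty
  · intro _
    exact ⟨LinearMap.toContinuousLinearMap f, hf⟩

lemma isProperFace_of_isExposed {P F : Set (Fin d → ℝ)} (h : IsExposed ℝ P F) (hne : F.Nonempty)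
    (hP : F ≠ P) : IsProperFace P F := by
  obtain ⟨f, hf⟩ := h hne
  exact ⟨Or.inr ⟨f.toLinearMap, hf⟩, hP⟩

/-- The facets of a full dimensional polyhedron with centres. -/
lemma isFacet_iff {J : Type} [Fintype J] [Nonempty J] (l : J → StrongDual ℝ (Fin d → ℝ))
    {c : J → (Fin d → ℝ)} (hc : Centers l c) (F : Set (Fin d → ℝ)) :
    IsFacet (HP l) F ↔ ∃ j, F = HF l j := by
  have hfr : Module.finrank ℝ (Fin d → ℝ) = d := by simp
  rw [← facet_iff hc F]
  constructor
  · rintro ⟨h1, h2, h3⟩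
    exact ⟨h1.isExposed, h2, by rw [hfr]; omega⟩
  · intro h
    obtain ⟨j, rfl⟩ := (facet_iff hc F).1 h
    refine ⟨isProperFace_of_isExposed h.1 h.2.1 (HF_ne_HP j), h.2.1, ?_⟩
    rw [finrank_HF hc j, hfr]

lemma isSimple_capped (hd : 4 ≤ d) : IsSimple (capped d) := by
  rw [capped_eq]
  intro v hv
  have h1 : {F : Set (Fin d → ℝ) | IsFacet (HP (lv (d := d))) F ∧ v ∈ F} =
      HF lv '' {j : Option (Fin d) × Bool | lv j v = 1} := by
    ext F
    simp only [mem_ofPred_eq, Set.mem_image]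
    rw [isFacet_iff lv (centers_lv hd)]
    constructor
    · rintro ⟨⟨j, rfl⟩, hvF⟩
      exact ⟨j, hvF.2, rfl⟩
    · rintro ⟨j, hj, rfl⟩
      exact ⟨⟨j, rfl⟩, hv.1, hj⟩
  rw [h1, Set.ncard_image_of_injective _ (centers_lv hd).inj]
  exact count_tight hd hv

lemma isPolytope_capped (hd : 4 ≤ d) : IsPolytope (capped d) := by
  rw [capped_eq]
  refine ⟨⟨_, hull_eq hd⟩, 0, ?_⟩
  rw [interior_HP]
  intro j
  simp

lemma neg_capped : capped d = -capped d := by
  rw [capped_eq]
  ext x
  rw [Set.mem_neg, mem_HP_iff, mem_HP_iff]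
  constructor
  · intro h o
    rw [map_neg, abs_neg]
    exact h o
  · intro h o
    have := h o
    rw [map_neg, abs_neg] at this
    exact this

lemma centrallySymmetric_capped : CentrallySymmetric (capped d) := by
  refine ⟨0, ?_⟩
  have : (fun x : Fin d → ℝ => 0 + x) '' capped d = capped d := by simp
  rw [this]
  exact neg_capped

/-- centres of the facets of the cube -/
noncomputable def cc (j : Fin d × Bool) : Fin d → ℝ := fun k => if k = j.1 then sg j.2 else 0

lemma centers_cube : Centers (lc (d := d)) cc := by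
  rintro ⟨i, b⟩
  refine ⟨?_, ?_⟩
  · rw [lc_apply]
    simp only [cc, if_true]
    exact sg_sq b
  · rintro ⟨k, b'⟩ hk
    rw [lc_apply]
    simp only [cc]
    by_cases hki : k = i
    · subst hki
      have hb : b' ≠ b := by
        rintro rfl
        exact hk rfl
      rw [if_pos rfl]
      cases b <;> cases b' <;> simp_all [sg] <;> norm_num
    · rw [if_neg hki, mul_zero]
      exact one_pos

/-- No homeomorphism from the boundary of the capped cube onto the boundary of the cube pulls all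
facets of the cube back to unions of faces. -/
theorem no_pullback (hd : 4 ≤ d) (φ : frontier (capped d) ≃ₜ frontier (cube d)) :
    ∃ G, IsFacet (cube d) G ∧ ¬ PullsBackToFaces φ G := by
  by_contra hcon
  push Not at hcon
  revert φ
  rw [capped_eq, cube_eq]
  intro φ hcon
  have hne : Nonempty (Fin d × Bool) := ⟨(⟨0, by omega⟩, true)⟩
  refine no_refinement lv lc cv (centers_lv hd) cc centers_cube φ.symm ?_
    (fun i => (i.1, !i.2)) ?_ (meet hd) ?_
  · intro j'
    obtain ⟨𝓕, h1, h2⟩ := hcon (HF lc j') ((isFacet_iff lc centers_cube _).2 ⟨j', rfl⟩)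
    refine ⟨𝓕, fun F hF => (h1 F hF).isExposed, ?_⟩
    ext y
    constructor
    · rintro ⟨x, hx, rfl⟩
      have h3 : ((φ (φ.symm x) : frontier (HP (lc (d := d)))) : Fin d → ℝ) ∈ HF lc j' := by
        rw [φ.apply_symm_apply]
        exact hx
      obtain ⟨F, hF, hxF⟩ := (h2 (φ.symm x)).1 h3
      exact ⟨F, hF, hxF⟩
    · rintro ⟨F, hF, hyF⟩
      have hpf := h1 F hF
      obtain ⟨j, hj⟩ := exists_subset_HF lv hpf.isExposed ⟨y, hyF⟩ hpf.2
      have hyf : y ∈ frontier (HP (lv (d := d))) := (mem_frontier_HP lv y).2 ⟨j, hj hyF⟩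
      have h3 := (h2 ⟨y, hyf⟩).2 ⟨F, hF, hyF⟩
      refine ⟨φ ⟨y, hyf⟩, h3, ?_⟩
      simp
  · rintro ⟨i, b⟩ x h1 h2
    have h3 := h1.2
    have h4 := h2.2
    rw [lc_apply] at h3 h4
    cases b <;> simp [sg] at h3 h4 <;> linarith
  · rw [Fintype.card_prod, Fintype.card_prod, Fintype.card_option, Fintype.card_fin]
    simp

theorem main (hd : 4 ≤ d) :
    IsPolytope (capped d) ∧ CentrallySymmetric (capped d) ∧ IsSimple (capped d) ∧
      (∀ φ : frontier (capped d) ≃ₜ frontier (cube d),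
        ∃ G, IsFacet (cube d) G ∧ ¬ PullsBackToFaces φ G) ∧
      ¬ BoundaryRefines (capped d) (cube d) := by
  refine ⟨isPolytope_capped hd, centrallySymmetric_capped, isSimple_capped hd, no_pullback hd, ?_⟩
  rintro ⟨φ, hφ⟩
  obtain ⟨G, hG, hG'⟩ := no_pullback hd φ
  exact hG' (hφ G hG.1)

end Pool.Agent.Lib.H2I
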