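import Mathlib

set_option autoImplicit false

namespace Pool.Agent.Lib.H2I

open Set Topology Filter

set_option linter.unusedSectionVars false

section General

variable {E : Type} [NormedAddCommGroup E] [NormedSpace ℝ E]
variable {J : Type} [Fintype J]

/-- The polyhedron cut out by the inequalities `l j x ≤ 1`. -/
def HP (l : J → StrongDual ℝ E) : Set E := {x | ∀ j, l j x ≤ 1}

/-- The part of the polyhedron on which the `j`-th inequality is tight. -/
def HF (l : J → StrongDual ℝ E) (j : J) : Set E := {x | (∀ k, l k x ≤ 1) ∧ l j x = 1}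

lemma isClosed_HP (l : J → StrongDual ℝ E) : IsClosed (HP l) := by
  have : HP l = ⋂ j, {x | l j x ≤ 1} := by ext x; simp [HP]
  rw [this]
  exact isClosed_iInter fun j => isClosed_le (l j).continuous continuous_const

lemma convex_HP (l : J → StrongDual ℝ E) : Convex ℝ (HP l) := by
  intro x hx y hy a b ha hb hab j
  simp only [map_add, map_smul, smul_eq_mul]
  have h1 := mul_le_mul_of_nonneg_left (hx j) ha
  have h2 := mul_le_mul_of_nonneg_left (hy j) hb
  linarith

/-- Moving a little from `x` in direction `v` stays in the polyhedron, if every tight constraint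
does not increase. -/
lemma exists_move (l : J → StrongDual ℝ E) {x v : E}
    (h : ∀ k, l k x < 1 ∨ (l k x ≤ 1 ∧ l k v ≤ 0)) : ∃ t : ℝ, 0 < t ∧ x + t • v ∈ HP l := by
  have h1 : ∀ k, ∀ᶠ t : ℝ in 𝓝[>] 0, l k (x + t • v) ≤ 1 := by
    intro k
    rcases h k with hk | ⟨hk, hk'⟩
    · have hc : ContinuousAt (fun t : ℝ => l k (x + t • v)) 0 := by fun_prop
      have h0 : (fun t : ℝ => l k (x + t • v)) 0 < 1 := by simpa using hk
      have := hc.eventually (gt_mem_nhds h0)
      exact (this.filter_mono nhdsWithin_le_nhds).mono fun t ht => le_of_lt ht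
    · filter_upwards [self_mem_nhdsWithin] with t ht
      have ht' : (0 : ℝ) < t := ht
      simp only [map_add, map_smul, smul_eq_mul]
      nlinarith
  have h2 : ∀ᶠ t : ℝ in 𝓝[>] 0, ∀ k, l k (x + t • v) ≤ 1 := eventually_all.2 h1
  obtain ⟨t, ht, ht0⟩ := (h2.and self_mem_nhdsWithin).exists
  exact ⟨t, ht0, ht⟩

lemma interior_HP (l : J → StrongDual ℝ E) : interior (HP l) = {x | ∀ j, l j x < 1} := by
  apply Subset.antisymm
  · intro x hx j
    by_contra hcon
    push Not at hcon
    have hxP : x ∈ HP l := interior_subset hx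
    have h1 : l j x = 1 := le_antisymm (hxP j) hcon
    have h2 : ∀ᶠ t : ℝ in 𝓝 0, x + t • x ∈ HP l := by
      have hc : ContinuousAt (fun t : ℝ => x + t • x) 0 := by fun_prop
      apply hc.eventually_mem
      simpa using mem_interior_iff_mem_nhds.mp hx
    obtain ⟨t, ht, ht0⟩ := ((h2.filter_mono nhdsWithin_le_nhds).and
      (self_mem_nhdsWithin : Ioi (0:ℝ) ∈ 𝓝[>] 0)).exists
    have h3 := ht j
    have ht0' : (0 : ℝ) < t := ht0
    simp only [map_add, map_smul, smul_eq_mul, h1] at h3
    linarith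
  · apply interior_maximal
    · intro x hx j
      exact le_of_lt (hx j)
    · have : {x : E | ∀ j, l j x < 1} = ⋂ j, {x | l j x < 1} := by ext x; simp
      rw [this]
      exact isOpen_iInter_of_finite fun j => isOpen_lt (l j).continuous continuous_const

lemma mem_frontier_HP (l : J → StrongDual ℝ E) (x : E) :
    x ∈ frontier (HP l) ↔ ∃ j, x ∈ HF l j := by
  rw [(isClosed_HP l).frontier_eq, interior_HP]
  constructor
  · rintro ⟨h1, h2⟩
    simp only [mem_ofPred_eq, not_forall, not_lt] at h2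
    obtain ⟨j, hj⟩ := h2
    exact ⟨j, h1, le_antisymm (h1 j) hj⟩
  · rintro ⟨j, h1, h2⟩
    refine ⟨h1, fun h3 => ?_⟩
    have := h3 j
    linarith

/-- An exposed face containing a point in the relative interior of the facet `j` contains the
whole facet. -/
lemma HF_subset_of_mem (l : J → StrongDual ℝ E) {F : Set E} (hF : IsExposed ℝ (HP l) F)
    {j : J} {p : E} (hp : p ∈ F) (hpj : l j p = 1) (hpk : ∀ k, k ≠ j → l k p < 1) :
    HF l j ⊆ F := by
  obtain ⟨g, hg⟩ := hF ⟨p, hp⟩
  intro x hx
  have hpF := hp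
  rw [hg] at hpF ⊢
  obtain ⟨hpP, hpmax⟩ := hpF
  refine ⟨hx.1, fun y hy => ?_⟩
  obtain ⟨t, ht, htP⟩ := exists_move l (x := p) (v := p - x) (by
    intro k
    by_cases hk : k = j
    · right
      subst hk
      refine ⟨hpP k, ?_⟩
      rw [map_sub, hpj, hx.2]
      simp
    · left
      exact hpk k hk)
  have h1 := hpmax _ htP
  simp only [map_add, map_smul, smul_eq_mul, map_sub] at h1
  have h2 : g p ≤ g x := by
    by_contra hcon
    push Not at hcon
    have : 0 < t * (g p - g x) := mul_pos ht (by linarith)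
    linarith
  exact (hpmax y hy).trans h2

/-- A proper nonempty exposed face lies in some facet. -/
lemma exists_subset_HF [Nonempty J] (l : J → StrongDual ℝ E) {F : Set E}
    (hF : IsExposed ℝ (HP l) F) (hne : F.Nonempty) (hprop : F ≠ HP l) :
    ∃ j, F ⊆ HF l j := by
  by_contra hcon
  push Not at hcon
  obtain ⟨g, hg⟩ := hF hne
  have h1 : ∀ j, ∃ x ∈ F, l j x < 1 := by
    intro j
    obtain ⟨x, hxF, hx⟩ := Set.not_subset.1 (hcon j)
    refine ⟨x, hxF, ?_⟩
    have hxP : x ∈ HP l := hF.subset hxF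
    rcases lt_or_eq_of_le (hxP j) with h | h
    · exact h
    · exact absurd ⟨hxP, h⟩ hx
  choose p hpF hp using h1
  set n : ℝ := (Fintype.card J : ℝ) with hn
  have hn0 : 0 < n := by
    rw [hn]
    exact_mod_cast Fintype.card_pos
  set q : E := ∑ j, (n⁻¹) • p j with hq
  have hconv : Convex ℝ F := hF.convex (convex_HP l)
  have hqF : q ∈ F := by
    apply hconv.sum_mem
    · intro i _
      positivity
    · simp only [Finset.sum_const, Finset.card_univ, nsmul_eq_mul]
      rw [← hn]
      field_simp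
    · intro i _
      exact hpF i
  have hqs : ∀ k, l k q < 1 := by
    intro k
    rw [hq, map_sum]
    have : (1 : ℝ) = ∑ _j : J, n⁻¹ := by
      simp only [Finset.sum_const, Finset.card_univ, nsmul_eq_mul]
      rw [← hn]
      field_simp
    rw [this]
    apply Finset.sum_lt_sum
    · intro j _
      simp only [map_smul, smul_eq_mul]
      have h1 : l k (p j) ≤ 1 := (hF.subset (hpF j)) k
      have h2 : 0 < n⁻¹ := by positivity
      nlinarith
    · refine ⟨k, Finset.mem_univ _, ?_⟩
      simp only [map_smul, smul_eq_mul]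
      have h1 : l k (p k) < 1 := hp k
      have h2 : 0 < n⁻¹ := by positivity
      nlinarith
  have hg0 : ∀ v, g v ≤ 0 := by
    intro v
    obtain ⟨t, ht, htP⟩ := exists_move l (x := q) (v := v) (fun k => Or.inl (hqs k))
    rw [hg] at hqF
    have h1 := hqF.2 _ htP
    simp only [map_add, map_smul, smul_eq_mul] at h1
    by_contra hc
    push Not at hc
    have : 0 < t * g v := mul_pos ht hc
    linarith
  have hg1 : ∀ v, g v = 0 := by
    intro v
    apply le_antisymm (hg0 v)
    have := hg0 (-v)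
    rw [map_neg] at this
    linarith
  apply hprop
  rw [hg]
  ext x
  constructor
  · exact fun h => h.1
  · intro hx
    refine ⟨hx, fun y _ => ?_⟩
    rw [hg1, hg1]

/-- Centers of facets: the only tight inequality at `c j` is the `j`-th. -/
def Centers (l : J → StrongDual ℝ E) (c : J → E) : Prop :=
  ∀ j, l j (c j) = 1 ∧ ∀ k, k ≠ j → l k (c j) < 1

lemma Centers.mem {l : J → StrongDual ℝ E} {c : J → E} (hc : Centers l c) (j : J) :
    c j ∈ HF l j := by
  refine ⟨fun k => ?_, (hc j).1⟩
  by_cases hk : k = j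
  · subst hk
    exact le_of_eq (hc k).1
  · exact le_of_lt ((hc j).2 k hk)

lemma Centers.inj {l : J → StrongDual ℝ E} {c : J → E} (hc : Centers l c) :
    Function.Injective (HF l) := by
  intro i j hij
  by_contra hne
  have h1 := hc.mem i
  rw [hij] at h1
  have h2 := (hc i).2 j (Ne.symm hne)
  have h3 := h1.2
  linarith

lemma isExposed_HF (l : J → StrongDual ℝ E) (j : J) : IsExposed ℝ (HP l) (HF l j) := by
  rintro ⟨x0, hx0⟩
  refine ⟨l j, ?_⟩
  ext x
  constructor
  · rintro ⟨h1, h2⟩
    refine ⟨h1, fun y hy => ?_⟩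
    rw [h2]
    exact hy j
  · rintro ⟨h1, h2⟩
    refine ⟨h1, le_antisymm (h1 j) ?_⟩
    have := h2 x0 hx0.1
    rw [hx0.2] at this
    exact this

lemma vectorSpan_HF {l : J → StrongDual ℝ E} {c : J → E} (hc : Centers l c) (j : J) :
    vectorSpan ℝ (HF l j) = LinearMap.ker (l j).toLinearMap := by
  apply le_antisymm
  · rw [vectorSpan_def, Submodule.span_le]
    rintro w ⟨x, hx, y, hy, rfl⟩
    simp only [vsub_eq_sub, SetLike.mem_coe, LinearMap.mem_ker, ContinuousLinearMap.coe_coe,
      map_sub]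
    rw [hx.2, hy.2, sub_self]
  · intro w hw
    have hw' : l j w = 0 := hw
    obtain ⟨t, ht, htP⟩ := exists_move l (x := c j) (v := w) (by
      intro k
      by_cases hk : k = j
      · right
        subst hk
        exact ⟨le_of_eq (hc k).1, le_of_eq hw'⟩
      · left
        exact (hc j).2 k hk)
    have h1 : c j + t • w ∈ HF l j := by
      refine ⟨htP, ?_⟩
      rw [map_add, map_smul, hw', (hc j).1]
      simp
    have h2 := vsub_mem_vectorSpan ℝ h1 (hc.mem j)
    simp only [vsub_eq_sub, add_sub_cancel_left] at h2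
    exact (Submodule.smul_mem_iff _ (ne_of_gt ht)).1 h2

lemma l_ne_zero {l : J → StrongDual ℝ E} {c : J → E} (hc : Centers l c) (j : J) :
    (l j).toLinearMap ≠ 0 := by
  intro h
  have h1 := (hc j).1
  have h2 : l j (c j) = (l j).toLinearMap (c j) := rfl
  rw [h2, h] at h1
  simp at h1

lemma finrank_HF [FiniteDimensional ℝ E] {l : J → StrongDual ℝ E} {c : J → E}
    (hc : Centers l c) (j : J) :
    Module.finrank ℝ (vectorSpan ℝ (HF l j)) + 1 = Module.finrank ℝ E := by
  rw [vectorSpan_HF hc j]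
  exact Module.Dual.finrank_ker_add_one_of_ne_zero (l_ne_zero hc j)

/-- The facets of the polyhedron are exactly the sets `HF l j`. -/
lemma facet_iff [FiniteDimensional ℝ E] [Nonempty J] {l : J → StrongDual ℝ E} {c : J → E}
    (hc : Centers l c) (F : Set E) :
    (IsExposed ℝ (HP l) F ∧ F.Nonempty ∧
      Module.finrank ℝ (vectorSpan ℝ F) = Module.finrank ℝ E - 1) ↔ ∃ j, F = HF l j := by
  have hpos : 0 < Module.finrank ℝ E := by
    have := finrank_HF hc (Classical.arbitrary J)
    omega
  constructor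
  · rintro ⟨hF, hne, hdim⟩
    have hprop : F ≠ HP l := by
      rintro rfl
      -- the polyhedron has full dimension
      obtain ⟨j0⟩ := (inferInstance : Nonempty J)
      have h1 : vectorSpan ℝ (HP l) = ⊤ := by
        rw [eq_top_iff]
        intro w _
        have h0 : ∀ k, l k (0 : E) < 1 := by intro k; simp
        obtain ⟨t, ht, htP⟩ := exists_move l (x := 0) (v := w) (fun k => Or.inl (h0 k))
        have h00 : (0 : E) ∈ HP l := fun k => le_of_lt (h0 k)
        have h2 := vsub_mem_vectorSpan ℝ htP h00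
        simp only [zero_add, vsub_eq_sub, sub_zero] at h2
        exact (Submodule.smul_mem_iff _ (ne_of_gt ht)).1 h2
      rw [h1, finrank_top] at hdim
      omega
    obtain ⟨j, hj⟩ := exists_subset_HF l hF hne hprop
    refine ⟨j, Subset.antisymm hj ?_⟩
    have hle : vectorSpan ℝ F ≤ vectorSpan ℝ (HF l j) := vectorSpan_mono ℝ hj
    have heq : vectorSpan ℝ F = vectorSpan ℝ (HF l j) := by
      apply Submodule.eq_of_le_of_finrank_eq hle
      have := finrank_HF hc j
      omega
    obtain ⟨g, hg⟩ := hF hne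
    obtain ⟨p, hp⟩ := hne
    intro x hx
    have h1 : x -ᵥ p ∈ vectorSpan ℝ F := by
      rw [heq]
      exact vsub_mem_vectorSpan ℝ hx (hj hp)
    have h2 : ∀ w ∈ vectorSpan ℝ F, g w = 0 := by
      intro w hw
      have h3 : vectorSpan ℝ F ≤ LinearMap.ker g.toLinearMap := by
        rw [vectorSpan_def, Submodule.span_le]
        rintro w ⟨a, ha, b, hb, rfl⟩
        simp only [vsub_eq_sub, SetLike.mem_coe, LinearMap.mem_ker, ContinuousLinearMap.coe_coe,
          map_sub]
        rw [hg] at ha hb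
        have h4 := ha.2 b hb.1
        have h5 := hb.2 a ha.1
        linarith
      exact h3 hw
    have h3 := h2 _ h1
    simp only [vsub_eq_sub, map_sub] at h3
    rw [hg] at hp ⊢
    refine ⟨hx.1, fun y hy => ?_⟩
    have := hp.2 y hy
    linarith
  · rintro ⟨j, rfl⟩
    refine ⟨isExposed_HF l j, ⟨c j, hc.mem j⟩, ?_⟩
    have := finrank_HF hc j
    omega

lemma HF_ne_HP [Nonempty J] {l : J → StrongDual ℝ E} (j : J) : HF l j ≠ HP l := by
  intro h
  have h0 : (0 : E) ∈ HP l := fun k => by simp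
  rw [← h] at h0
  have := h0.2
  simp at this

end General

section Topological

variable {E : Type} [NormedAddCommGroup E] [NormedSpace ℝ E]
variable {E' : Type} [NormedAddCommGroup E'] [NormedSpace ℝ E']
variable {J J' : Type} [Fintype J] [Fintype J']

/-- The image in `∂(HP l)` of the facet `j'` of `HP l'`. -/
def Im (l : J → StrongDual ℝ E) (l' : J' → StrongDual ℝ E')
    (h : (frontier (HP l')) ≃ₜ (frontier (HP l))) (j' : J') : Set E :=
  (fun x => (h x : E)) '' {x : frontier (HP l') | (x : E') ∈ HF l' j'}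

/-- Every facet of `HP l` lies in the image of a facet of `HP l'`. -/
lemma part_a (l : J → StrongDual ℝ E) (l' : J' → StrongDual ℝ E')
    (c : J → E) (hc : Centers l c)
    (h : (frontier (HP l')) ≃ₜ (frontier (HP l)))
    (hh : ∀ j', ∃ 𝓕 : Set (Set E), (∀ F ∈ 𝓕, IsExposed ℝ (HP l) F) ∧ Im l l' h j' = ⋃₀ 𝓕)
    (j : J) : ∃ j', HF l j ⊆ Im l l' h j' := by
  have hcj : c j ∈ frontier (HP l) := (mem_frontier_HP l _).2 ⟨j, hc.mem j⟩
  set q := h.symm ⟨c j, hcj⟩ with hq
  obtain ⟨j', hj'⟩ := (mem_frontier_HP l' _).1 q.2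
  refine ⟨j', ?_⟩
  obtain ⟨𝓕, h1, h2⟩ := hh j'
  have h3 : c j ∈ Im l l' h j' := ⟨q, hj', by simp [hq]⟩
  rw [h2] at h3 ⊢
  obtain ⟨F, hF, hcF⟩ := h3
  exact (HF_subset_of_mem l (h1 F hF) hcF (hc j).1 (hc j).2).trans (subset_sUnion_of_mem hF)

/-- The image of every facet of `HP l'` contains a facet of `HP l`. -/
lemma part_b (l : J → StrongDual ℝ E) (l' : J' → StrongDual ℝ E')
    (c : J → E) (hc : Centers l c) (c' : J' → E') (hc' : Centers l' c')
    (h : (frontier (HP l')) ≃ₜ (frontier (HP l)))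
    (hh : ∀ j', ∃ 𝓕 : Set (Set E), (∀ F ∈ 𝓕, IsExposed ℝ (HP l) F) ∧ Im l l' h j' = ⋃₀ 𝓕)
    (j' : J') : ∃ j, HF l j ⊆ Im l l' h j' := by
  classical
  -- the relative interior of the facet `j'`
  set U : Set (frontier (HP l')) := {x | ∀ k, k ≠ j' → l' k (x : E') < 1} with hU
  have hUopen : IsOpen U := by
    have : U = ⋂ k : J', {x : frontier (HP l') | k ≠ j' → l' k (x : E') < 1} := by
      ext x; simp [hU]
    rw [this]
    apply isOpen_iInter_of_finite
    intro k
    by_cases hk : k = j'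
    · have : {x : frontier (HP l') | k ≠ j' → l' k (x : E') < 1} = univ := by
        ext x; simp [hk]
      rw [this]
      exact isOpen_univ
    · have : {x : frontier (HP l') | k ≠ j' → l' k (x : E') < 1} =
          {x : frontier (HP l') | l' k (x : E') < 1} := by
        ext x; simp [hk]
      rw [this]
      exact isOpen_lt ((l' k).continuous.comp continuous_subtype_val) continuous_const
  have hUsub : ∀ x ∈ U, (x : E') ∈ HF l' j' := by
    intro x hx
    obtain ⟨k, hk⟩ := (mem_frontier_HP l' _).1 x.2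
    by_cases hkj : k = j'
    · rw [← hkj]; exact hk
    · have := hx k hkj
      have := hk.2
      linarith
  have hc'f : c' j' ∈ frontier (HP l') := (mem_frontier_HP l' _).2 ⟨j', hc'.mem j'⟩
  have hc'U : (⟨c' j', hc'f⟩ : frontier (HP l')) ∈ U := (hc' j').2
  have hVopen : IsOpen (h '' U) := h.isOpenMap U hUopen
  obtain ⟨W, hW, hWV⟩ := isOpen_induced_iff.1 hVopen
  set q0 : frontier (HP l) := h ⟨c' j', hc'f⟩ with hq0
  have hq0V : q0 ∈ h '' U := ⟨_, hc'U, rfl⟩
  have hq0W : (q0 : E) ∈ W := by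
    rw [← hWV] at hq0V
    exact hq0V
  obtain ⟨j, hj⟩ := (mem_frontier_HP l _).1 q0.2
  refine ⟨j, ?_⟩
  -- the path from `q0` to the centre of facet `j`
  have hpath : ∀ᶠ t : ℝ in 𝓝[>] 0, (q0 : E) + t • (c j - q0) ∈ W := by
    have hcont : ContinuousAt (fun t : ℝ => (q0 : E) + t • (c j - q0)) 0 := by fun_prop
    have := hcont.eventually_mem (s := W) (by simpa using hW.mem_nhds hq0W)
    exact this.filter_mono nhdsWithin_le_nhds
  have hlt1 : ∀ᶠ t : ℝ in 𝓝[>] 0, t < 1 :=
    (gt_mem_nhds one_pos).filter_mono nhdsWithin_le_nhds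
  obtain ⟨t, ⟨htW, ht1⟩, ht0⟩ := ((hpath.and hlt1).and self_mem_nhdsWithin).exists
  have ht0' : (0 : ℝ) < t := ht0
  set p : E := (q0 : E) + t • (c j - q0) with hp
  have hpj : l j p = 1 := by
    rw [hp]
    simp only [map_add, map_smul, smul_eq_mul, map_sub]
    rw [hj.2, (hc j).1]
    ring
  have hpk : ∀ k, k ≠ j → l k p < 1 := by
    intro k hk
    rw [hp]
    simp only [map_add, map_smul, smul_eq_mul, map_sub]
    have h1 := hj.1 k
    have h2 := (hc j).2 k hk
    nlinarith
  have hpP : p ∈ HF l j := by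
    refine ⟨fun k => ?_, hpj⟩
    by_cases hk : k = j
    · subst hk; exact le_of_eq hpj
    · exact le_of_lt (hpk k hk)
  have hpf : p ∈ frontier (HP l) := (mem_frontier_HP l _).2 ⟨j, hpP⟩
  have hpV : (⟨p, hpf⟩ : frontier (HP l)) ∈ h '' U := by
    rw [← hWV]
    exact htW
  obtain ⟨x, hxU, hx⟩ := hpV
  have hpIm : p ∈ Im l l' h j' := ⟨x, hUsub x hxU, by simp [hx]⟩
  obtain ⟨𝓕, h1, h2⟩ := hh j'
  rw [h2] at hpIm ⊢
  obtain ⟨F, hF, hcF⟩ := hpIm
  exact (HF_subset_of_mem l (h1 F hF) hcF hpj hpk).trans (subset_sUnion_of_mem hF)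

/-- The obstruction: if opposite facets of `HP l'` are disjoint, `HP l` has more facets, and each
facet of `HP l` meets one of any two given distinct facets, there is no refinement map. -/
theorem no_refinement (l : J → StrongDual ℝ E) (l' : J' → StrongDual ℝ E')
    (c : J → E) (hc : Centers l c) (c' : J' → E') (hc' : Centers l' c')
    (h : (frontier (HP l')) ≃ₜ (frontier (HP l)))
    (hh : ∀ j', ∃ 𝓕 : Set (Set E), (∀ F ∈ 𝓕, IsExposed ℝ (HP l) F) ∧ Im l l' h j' = ⋃₀ 𝓕)
    (neg : J' → J') (hneg : ∀ i x, x ∈ HF l' i → x ∈ HF l' (neg i) → False)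
    (hmeet : ∀ a b d : J, b ≠ d → (HF l a ∩ HF l b).Nonempty ∨ (HF l a ∩ HF l d).Nonempty)
    (hcard : Fintype.card J' < Fintype.card J) : False := by
  have ha := part_a l l' c hc h hh
  choose f hf using ha
  obtain ⟨j1, j2, hne, heq⟩ := Fintype.exists_ne_map_eq_of_card_lt f hcard
  obtain ⟨j3, hj3⟩ := part_b l l' c hc c' hc' h hh (neg (f j1))
  have hdisj : ∀ x, x ∈ Im l l' h (f j1) → x ∈ Im l l' h (neg (f j1)) → False := by
    rintro x ⟨y, hy, rfl⟩ ⟨z, hz, hzy⟩
    have : z = y := h.injective (Subtype.ext hzy)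
    subst this
    exact hneg _ _ hy hz
  rcases hmeet j3 j1 j2 hne with ⟨x, hx3, hx1⟩ | ⟨x, hx3, hx2⟩
  · exact hdisj x (hf j1 hx1) (hj3 hx3)
  · exact hdisj x (by rw [heq]; exact hf j2 hx2) (hj3 hx3)

end Topological



end Pool.Agent.Lib.H2I
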